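import Mathlib
import Pool.Agent.R913.Ind.FamMain

/-!
# The variational Hodge conjecture for the product of any family of abelian varieties which moves in all
parts and a family of varieties

Let `A → B` be a family of principally polarized abelian varieties and `Y → B` a smooth projective
family of varieties; the local systems of their homology and cohomology are trivialized, `A_b` is
given by its period matrix `Z b` and `Y_b` by its Hodge operator `(Y b).z` on `ℚ ^ v`. Suppose that
`A` moves in all parts relative to `Y`: through each point of `B` there is a connected complex
manifold `U` along which the Hodge structure of `Y` is constant, such that

* the Hodge group of the family `A` over `U` is semisimple: the products of its Hodge operators and the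
  endomorphisms of the family in the centre of the endomorphism algebra have trace zero (this
  is no condition without factors of the fourth type with unbalanced signature);
* no isotypic part of `A` is constant: for no idempotent `e ≠ 0` in the complexification of the
  centre of the endomorphism algebra of the family over `U`, the product of `e` and the Hodge operator
  is constant on `U`.

*Theorem.* For all `n`:

(1) every flat class which is a Hodge class on all `A_b ^ n × Y_b` is a sum of products of flat
classes which are Hodge classes on all `A_b ^ n` and on all `Y_b`;

(2) if the flat Hodge classes on `A ^ n` are algebraic (the two closure properties of `FamilyCycles`),
the variational Hodge conjecture for `A ^ n × Y` is equivalent to the one for `Y`.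

There is no condition on ranks, on the number of moduli or on the dimension: `A` may have any
endomorphisms, be a product, and have flat Hodge classes which are not generated by divisors. For
instance (not part of the formal statement) it applies to the families of abelian fourfolds of
Weil type, whose flat Hodge classes are algebraic by the theorem of Markman. The earlier theorems
MP_e9c0f3_ag.TimesAnyVariety and GeneralRankTimesVariety need simple members and rank
conditions, which imply that all flat Hodge classes on `A ^ n` are generated by divisors.

*Proof.* Let `D_t`, `t` in `U`, be the Hodge operators of the members and `D` the one of a very general
member. Let `S` be a rational subspace of the tensors which is stable under the sums of `D_t` and of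
the Hodge operator of `Y` for all `t`, and `k` the ideal of the elements of the Hodge Lie algebra of
`D` which stabilize `S`; so `D_t - D` is in `k`. By the theorem of MP_4e1cf2_ag.IndependentFactor
the component of `D` in the orthogonal ideal is `e D` for an idempotent `e` in the complexified
centre. So `D_t - D` commutes with `e D`, and `e D_t` and `e D` commute; since both squares are `e`
and since both complex structures are positive with respect to the same polarization, they are equal.
So `e D_t` is constant, and `e = 0`. Hence `S` is stable under `D`.
-/

namespace Pool.Agent.Results.MP_e9c0f3_ag.AnyFamilyTimesVariety

open Pool.Agent.TH131.GHC Pool.Agent.R913.Ind

/-- **Any family of abelian varieties times a variety**: if the family `A` of abelian varieties with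
the period matrices `Z` moves in all parts relative to the family `Y` then the flat Hodge classes on
`A ^ n × Y` are sums of products of flat Hodge classes, and the variational Hodge conjecture for
`A ^ n × Y` is equivalent to the one for `Y`, for all systems of algebraic classes for which the flat
Hodge classes on `A ^ n` are algebraic. -/
theorem result {B : Type} [Nonempty B] {g v : ℕ} (Z : B → Matrix (Fin g) (Fin g) ℂ)
    (Y : B → Coh v) (h : MovesRelativeTo Z Y) (n : ℕ) :
    FlatAreProducts (fun b => powPer (Z b) n) Y ∧
      VariationalReducesToY (fun b => powPer (Z b) n) Y :=
  fam_main h n

end Pool.Agent.Results.MP_e9c0f3_ag.AnyFamilyTimesVariety
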