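import Pool.Agent.R936.Vh.Fin

/-!
# The variational Hodge conjecture: constant factors of CM type

Let `X i`, `i ∈ I`, be a family (finite or infinite) of smooth projective complex varieties of CM type
(for instance of abelian varieties with complex multiplication by subfields of one CM field) and suppose
that the Hodge group of the sum of the Hodge structures `H(X i)` is of dimension at most `R`, and that
the Hodge conjecture holds for the products in which at most `R + 1` different members occur.

*Theorem.* There is one product `Y` of members of the family such that, for every smooth projective
family `𝒵 → S` of varieties of dimension `n`, of any kind, over a smooth connected base, and for any two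
points `0`, `s` of `S`: the variational Hodge conjecture holds, for the points `0` and `s`, for all
families `𝒵 × X i₁ × ⋯ × X iₘ → S`, if and only if it holds, for these points, for `𝒵 × Y ^ n → S` (for
`n = 0` read `𝒵 × Y`).

The family is given by a smooth projective compactification `B` of the total space and the inclusions
`i₀` and `i₁` of the fibres at `0` and at `s`. By the theorem of the fixed part, the global sections of
the local system with the fibres `H(𝒵_t × P)` are the restrictions of the classes on `B × P`, so that
the variational Hodge conjecture for `𝒵 × P` is the statement `Vhc T i₀ i₁ P`. That a flat class which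
vanishes at `0` vanishes at `s` is the hypothesis on the kernels; no other property of a family is used.

*Proof.* Let `c` be a class on `B × P` whose restriction to `Z₀ × P` is algebraic. Over a splitting field
`L` it is a sum of classes `z_a ⊗ w_a`, where the `w_a` form a basis of `H(P) ⊗ L` of products of
eigenvectors. As the restriction of `c` to `Z₀ × P` is a combination of Hodge classes, the differences
of the Hodge types of the conjugates of `w_a` are bounded by `n = dim Z₀` if the restriction of `z_a` to
`Z₀` is not zero, so there is a product `b` of eigenvectors on `Y ^ n` with the same differences (`Y` is
given by a lemma of Dickson type). The contraction with an algebraic class on `P × Y ^ n` shows that the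
restriction of `z_a ⊗ b` to `Z₀ × Y ^ n` is algebraic. The class `z_a ⊗ b` is a combination of rational
classes with the same property, so by the variational Hodge conjecture for `𝒵 × Y ^ n` the restriction
of `z_a ⊗ b` to `Z₁ × Y ^ n` is algebraic, and the contraction with the class `b' ⊗ w_a`, where `b'` is
dual to `b`, shows that the restriction of `z_a ⊗ w_a` to `Z₁ × P` is algebraic. (The classes on `P × Y^n`
and `Y^n × P` used are Hodge classes on products of members of the family.)
-/

universe u w

namespace Pool.Agent.Results.MP_e9c0f3_ag.ConstantFactorsOfCMType

open CategoryTheory H914 Y121.AHS R940 R936.Two R936.Vh VarClass Obj WeilCohomology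

/-- **The variational Hodge conjecture with constant factors of CM type**: for a family of varieties of
CM type with a Hodge group of dimension at most `R`, for which the Hodge conjecture holds for the
products with at most `R + 1` different factors, there is one product `Y` of members such that, for every
family of varieties of dimension `n` (with the compactification `B` and the fibres `Z₀` and `Z₁`), the
product of the family with `Y ^ n` decides for the products with all products of members. -/
theorem result {k : Type u} [Field k] {𝒱 : VarClass k} {ops : CycleOps 𝒱} (T : HodgeTheory ops)
    (hpos : NonnegTypes T) {I : Type w} [Nonempty I] (X : I → 𝒱.Obj)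
    (hX : ∀ i, IsCM T (X i)) (R : ℕ) (hR : HgDimLe T X R)
    (h : ∀ i L, (∃ F : Finset I, F.card ≤ R + 1 ∧ ∀ j ∈ i :: L, j ∈ F) →
      AllAlg (IsHodge T (prodOf X i L))) :
    ∃ (i0 : I) (L0 : List I), ∀ (B Z₀ Z₁ : 𝒱.Obj) (i₀ : Z₀ ⟶ B) (i₁ : Z₁ ⟶ B),
      (∀ x, T.W.map i₀ x = 0 → T.W.map i₁ x = 0) →
        (Vhc T i₀ i₁ (powerOf X i0 L0 Z₀.dim) ↔ ∀ i L, Vhc T i₀ i₁ (prodOf X i L)) :=
  vhc_main hpos hX hR h

end Pool.Agent.Results.MP_e9c0f3_ag.ConstantFactorsOfCMType
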