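import Pool.Agent.R914.FG.Thm

/-!
# The variational Hodge conjecture in degree four implies it for all powers up to a finite group

Let `𝒜 → S` be an abelian scheme whose generic fibre has no factors of type IV; after a finite covering of
`S` the monodromy is contained in the (connected) Hodge group of a very general fibre `𝒜_b`. Let
`V = H¹(𝒜_b, ℂ)`, with a basis `B` which is orthonormal for the Hermitian form of a polarisation, `𝔥 ⊂ End V`
the complexified Lie algebra of the Hodge group, `J` the polarisation. For `t ∈ S` let `Z t` be the system
of the spaces spanned, in all tensor powers `V^{⊗ι} ⊂ H^{|ι|}(𝒜_b^ι)`, by the flat classes whose value at `t`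
is algebraic. The hypotheses `IsFamily` hold: `Z t` is closed under products and contractions (the
Künneth components and the Lefschetz operators of abelian schemes are algebraic, Lieberman); a flat class
which is algebraic at `t` is a Hodge class everywhere (Deligne), hence killed by `𝔥`; the tensors of
degree two killed by `𝔥` are Hodge classes at all points, hence algebraic (Lefschetz); the commutant of
`𝔥` is `End 𝒜_b ⊗ ℂ` and its centre is fixed by the Rosati involution.

*Theorem.* Suppose that the classes in `V^{⊗4} ⊂ H⁴(𝒜_b⁴)` satisfy the variational Hodge conjecture. Then
there is a finite group `F`, acting on spaces of classes which contain all flat classes algebraic at some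
point, for all powers of `𝒜`, such that such a class is algebraic at all points if and only if it is fixed
by `F`.

*Proof.* Let `G` be the stabiliser of the system `⋂ Z t` and `G_o` the stabiliser of `Z o`. By a theorem of
Tannaka type the tensors of the systems are the invariants of `G`, `G_o`. The orthogonal projection of
`End V` onto `Lie G_o` is an invariant of `G_o` of degree four, hence by the assumption an invariant of `G`,
so that `Lie G_o` is an ideal of `Lie G`; its complement commutes with `Lie G_o ⊃ 𝔥`, hence belongs to
`End 𝒜_b ⊗ ℂ` and to its centre, and vanishes as there are no factors of type IV. So `Lie G_o = Lie G`. By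
the polar decomposition `G = K · P` with `K` compact and `P` in the identity component; elements of `K`
near `1` are exponentials of elements of the Lie algebra, as their eigenvalues satisfy only the
multiplicative relations of length at most four which their logarithms satisfy. So finitely many elements
of `K` suffice.
-/

namespace Pool.Agent.Results.MP_e9c0f3_ag.DegreeFourUpToFiniteGroup

open Matrix Pool.Agent.R914.UN Pool.Agent.R914.FG

/-- **If the variational conjecture holds for the tensors of degree four, then there is a finite group
such that, in all degrees, a class which is algebraic at one point is algebraic at all points if and only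
if it is fixed by the group.** -/
theorem result {B : Type} [Fintype B] [DecidableEq B] {T : Type} [Nonempty T] {Z : T → TSys B}
    {𝔥 : Submodule ℂ (Matrix B B ℂ)} {J : Matrix B B ℂ} (hZ : IsFamily Z 𝔥 J)
    (h4 : Vhc Z (Fin 4)) :
    ∃ F : Finset (Matrix B B ℂ), ActsAsGroup F (inter Z) ∧
      ∀ (ι : Type) [Fintype ι] [DecidableEq ι] (v : (ι → B) → ℂ),
        ((∃ t, v ∈ (Z t).A ι) → Env (inter Z) ι v) ∧
        (Env (inter Z) ι v → ((∀ t, v ∈ (Z t).A ι) ↔ ∀ f ∈ F, tp ι f *ᵥ v = v)) :=
  vhc_main hZ h4

end Pool.Agent.Results.MP_e9c0f3_ag.DegreeFourUpToFiniteGroup
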