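import Pool.Agent.R919.VH.Main

/-!
# MP_e9c0f3_ag: the variational Hodge conjecture for fibre products of an arbitrary family with all but
few families of elliptic curves

Let `X → S` be an ARBITRARY smooth projective family, `M = V o` the rational cohomology of a fibre,
with the monodromy representation `ρ o` of the fundamental group `Γ` of `S`; it respects a nondegenerate
form up to scalars (a polarization). Let `E_j → S`, for `j` in an arbitrary set of indices, be
non-isotrivial families of elliptic curves, pairwise non-isogenous (over all finite coverings of `S`),
and `ρ j` the monodromy representation on `H^1`: it has dimension two, determinant one, no line over the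
algebraic closure of `ℚ` is stable under a subgroup of finite index, there is an element no power of
which has a double eigenvalue, and for `i ≠ j` no nonzero map from `ρ i` to `ρ j` commutes with a
subgroup of finite index.

The theorem: there is a set `S` of at most `dim M / 2` exceptional indices (all of them `Linked` with
`o`: there is an equivariant homomorphism from a Lie algebra of endomorphisms of `M` onto the
endomorphisms of trace zero of `V i`) such that for all fibre products `P = X^a ×_S E_1^{b_1} ×_S ...`
with `j ∉ S`:

* every flat class (every global section) on `P` is a sum of products of flat classes on `X^a` and of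
  flat classes on `E_1^{b_1} ×_S ... `;
* **the variational Hodge conjecture for the fibre powers of `X → S` implies the variational Hodge
  conjecture for `P → S`.**

`S` does not depend on the algebraic classes. Nothing is assumed on `X → S`: the base may be a curve, the
Hodge structures of the fibres of `X` and of the `E_j` may vary together, and `X` may be a family of
abelian varieties with elliptic factors. The bound cannot be improved: take for `X` a product of some
of the `E_j`.

About cycles only the following is used: products of algebraic classes are algebraic, the flat classes
on the products of the `E_j` are algebraic on all fibres (they are generated by divisor classes), and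
coefficients of algebraic classes with respect to algebraic classes on the powers of the elliptic curves
are algebraic (`Contracts`; this follows from the theorem of Lieberman that homological equivalence is
numerical equivalence on abelian varieties).
-/

namespace Pool.Agent.Results.MP_e9c0f3_ag.FewExceptionalFamilies

open Matrix Pool.Agent.R919.AH Pool.Agent.R919.VH Pool.Agent.R919.GT

theorem result {Γ J : Type} [Group Γ] [DecidableEq J] {B : J → Type} [∀ j, Fintype (B j)]
    [∀ j, DecidableEq (B j)] (ρ : ∀ j, Γ →* Matrix (B j) (B j) ℚ)
    (o : J) (Q : Matrix (B o) (B o) ℚ) (hQu : IsUnit Q)
    (hQ : ∀ γ, ∃ r : ℚ, (ρ o γ)ᵀ * Q * ρ o γ = r • Q)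
    (h1 : ∀ j, j ≠ o → IsEll 1 (ρ j))
    (h2 : ∀ i j, i ≠ o → j ≠ o → i ≠ j → NonIso (ρ i) (ρ j)) :
    ∃ S : Finset J, o ∉ S ∧ 2 * S.card ≤ Fintype.card (B o) ∧ (∀ i ∈ S, Linked (ρ o) (ρ i)) ∧
      (∀ (κ : Type) [Fintype κ] [DecidableEq κ] (f : κ → J), (∀ x, f x ∉ S) →
        flat ρ f ≤ flatIn ρ f {o} * flatIn ρ f ((Finset.univ.image f).erase o)) ∧
      ∀ (T : Type) (Z : T → CycleSystem B), (∀ t, Contracts (Z t) o) →
        FlatAlgebraic ρ Z o S → VhcAt ρ Z o →
          ∀ (κ : Type) [Fintype κ] [DecidableEq κ] (f : κ → J), (∀ x, f x ∉ S) →
            Vhc ρ f Z :=
  main ρ o Q hQu hQ h1 h2

end Pool.Agent.Results.MP_e9c0f3_ag.FewExceptionalFamilies
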